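import Mathlib

/-!
# The sequences generated by `2k + 2` and `3k + 3` are not injective for `-14 ≤ a ≤ 10`

For instance `s_3(21504) = s_3(2043) = 177150` and `s_{-4}(128) = s_{-4}(51) = -258`.
-/

set_option autoImplicit false

namespace Pool.Agent.Results.MP_6850eb_nt.NotInjective

/-- The sequence `s_a`: `s_a(1) = a`, `s_a(2k) = 2 s_a(k) + 2`, `s_a(2k+1) = 3 s_a(k) + 3` for
`k ≥ 1`. (The value at `0` plays no role.) -/
def s (a : ℤ) : ℕ → ℤ
  | 0 => 0
  | 1 => a
  | (n + 2) => if (n + 2) % 2 = 0 then 2 * s a ((n + 2) / 2) + 2 else 3 * s a ((n + 2) / 2) + 3
decreasing_by all_goals omega

lemma s_one (a : ℤ) : s a 1 = a := by rw [s]

lemma s_even (a : ℤ) (n : ℕ) (hn : 1 ≤ n) : s a (2 * n) = 2 * s a n + 2 := by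
  obtain ⟨m, rfl⟩ : ∃ m, n = m + 1 := ⟨n - 1, by omega⟩
  rw [show 2 * (m + 1) = 2 * m + 2 by ring, s, if_pos (by omega)]
  congr 3
  omega

lemma s_odd (a : ℤ) (n : ℕ) (hn : 1 ≤ n) : s a (2 * n + 1) = 3 * s a n + 3 := by
  obtain ⟨m, rfl⟩ : ∃ m, n = m + 1 := ⟨n - 1, by omega⟩
  rw [show 2 * (m + 1) + 1 = (2 * m + 1) + 2 by ring, s, if_neg (by omega)]
  congr 3
  omega

/-- the number with the given binary digits after a leading one -/
def num : ℕ → List Bool → ℕ
  | n, [] => n
  | n, b :: l => num (2 * n + (if b then 1 else 0)) l

/-- the value after applying the maps given by the digits -/
def val : ℤ → List Bool → ℤ
  | x, [] => x
  | x, b :: l => val (if b then 3 * x + 3 else 2 * x + 2) l

lemma s_num (a : ℤ) (l : List Bool) : ∀ n : ℕ, 1 ≤ n → s a (num n l) = val (s a n) l := by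
  induction l with
  | nil => intro n _; rfl
  | cons b l ih =>
    intro n hn
    cases b
    · simp only [num, val, Bool.false_eq_true, if_false]
      rw [ih _ (by omega), ← s_even a n hn]
      rfl
    · simp only [num, val, if_true]
      rw [ih _ (by omega), ← s_odd a n hn]

lemma collision (a : ℤ) (m n : ℕ) (l l' : List Bool) (h1 : num 1 l = m) (h2 : num 1 l' = n)
    (h : val a l = val a l') (hne : m ≠ n ∧ 1 ≤ m ∧ 1 ≤ n) :
    ∃ m n : ℕ, 1 ≤ m ∧ 1 ≤ n ∧ m ≠ n ∧ s a m = s a n := by
  refine ⟨m, n, hne.2.1, hne.2.2, hne.1, ?_⟩
  have e1 := s_num a l 1 le_rfl
  have e2 := s_num a l' 1 le_rfl
  rw [s_one] at e1 e2
  rw [← h1, ← h2, e1, e2, h]

/-- **Theorem.** For every integer `a` with `-14 ≤ a ≤ 10` the map `s_a` is not injective on the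
positive integers.  In particular it is not true that `s_a` is injective for all integers `a` with
`a < -3` or `a > 2`. -/
theorem result :
    (∀ a : ℤ, -14 ≤ a → a ≤ 10 → ∃ m n : ℕ, 1 ≤ m ∧ 1 ≤ n ∧ m ≠ n ∧ s a m = s a n) ∧
    ¬ (∀ a : ℤ, (a < -3 ∨ 2 < a) → ∀ m n : ℕ, 1 ≤ m → 1 ≤ n → s a m = s a n → m = n) := by
  have main : ∀ a : ℤ, -14 ≤ a → a ≤ 10 →
      ∃ m n : ℕ, 1 ≤ m ∧ 1 ≤ n ∧ m ≠ n ∧ s a m = s a n := by
    intro a h1 h2
    interval_cases a
    · exact collision (-14) 1631649792 10680063
          [true, false, false, false, false, true, false, true, false, false, false, false, false,
          true, false, false, false, false, false, false, false, false, false, false, false,
          false, false, false, false, false]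
          [false, true, false, false, false, true, false, true, true, true, true, false, true, true,
          false, true, true, true, true, true, true, true, true]
          (by decide) (by decide) (by decide) (by decide)
    · exact collision (-13) 838927360 5756351
          [true, false, false, true, false, false, false, false, false, false, false, false, true,
          false, false, false, false, false, true, false, false, false, false, false, false,
          false, false, false, false]
          [false, true, false, true, true, true, true, true, false, true, false, true, false, true,
          true, false, true, true, true, true, true, true]
          (by decide) (by decide) (by decide) (by decide)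
    · exact collision (-12) 1628440640 11271119
          [true, false, false, false, false, true, false, false, false, true, false, false, false,
          false, false, false, false, false, true, false, false, false, false, true, false, false,
          false, false, false, false]
          [false, true, false, true, false, true, true, true, true, true, true, true, false, true,
          true, true, true, false, false, true, true, true, true]
          (by decide) (by decide) (by decide) (by decide)
    · exact collision (-11) 8384 2003
          [false, false, false, false, false, true, true, false, false, false, false, false, false]
          [true, true, true, true, false, true, false, false, true, true]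
          (by decide) (by decide) (by decide) (by decide)
    · exact collision (-10) 1088 239
          [false, false, false, true, false, false, false, false, false, false]
          [true, true, false, true, true, true, true]
          (by decide) (by decide) (by decide) (by decide)
    · exact collision (-9) 1024 207
          [false, false, false, false, false, false, false, false, false, false]
          [true, false, false, true, true, true, true]
          (by decide) (by decide) (by decide) (by decide)
    · exact collision (-8) 1280 251
          [false, true, false, false, false, false, false, false, false, false]
          [true, true, true, true, false, true, true]
          (by decide) (by decide) (by decide) (by decide)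
    · exact collision (-7) 10512 1855
          [false, true, false, false, true, false, false, false, true, false, false, false, false]
          [true, true, false, false, true, true, true, true, true, true]
          (by decide) (by decide) (by decide) (by decide)
    · exact collision (-6) 2112 367
          [false, false, false, false, true, false, false, false, false, false, false]
          [false, true, true, false, true, true, true, true]
          (by decide) (by decide) (by decide) (by decide)
    · exact collision (-5) 448 143
          [true, true, false, false, false, false, false, false]
          [false, false, false, true, true, true, true]
          (by decide) (by decide) (by decide) (by decide)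
    · exact collision (-4) 128 51
          [false, false, false, false, false, false, false]
          [true, false, false, true, true]
          (by decide) (by decide) (by decide) (by decide)
    · exact collision (-3) 3 4
          [true]
          [false, false]
          (by decide) (by decide) (by decide) (by decide)
    · exact collision (-2) 1 2
          []
          [false]
          (by decide) (by decide) (by decide) (by decide)
    · exact collision (-1) 2 3
          [false]
          [true]
          (by decide) (by decide) (by decide) (by decide)
    · exact collision (0) 11 16
          [false, true, true]
          [false, false, false, false]
          (by decide) (by decide) (by decide) (by decide)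
    · exact collision (1) 15 20
          [true, true, true]
          [false, true, false, false]
          (by decide) (by decide) (by decide) (by decide)
    · exact collision (2) 7 8
          [true, true]
          [false, false, false]
          (by decide) (by decide) (by decide) (by decide)
    · exact collision (3) 21504 2043
          [false, true, false, true, false, false, false, false, false, false, false, false, false,
          false]
          [true, true, true, true, true, true, true, false, true, true]
          (by decide) (by decide) (by decide) (by decide)
    · exact collision (4) 49232 4351
          [true, false, false, false, false, false, false, false, true, false, true, false, false,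
          false, false]
          [false, false, false, false, true, true, true, true, true, true, true, true]
          (by decide) (by decide) (by decide) (by decide)
    · exact collision (5) 28672 2367
          [true, true, false, false, false, false, false, false, false, false, false, false, false,
          false]
          [false, false, true, false, false, true, true, true, true, true, true]
          (by decide) (by decide) (by decide) (by decide)
    · exact collision (6) 939008 71547
          [true, true, false, false, true, false, true, false, true, false, false, false, false,
          false, false, false, false, false, false]
          [false, false, false, true, false, true, true, true, false, true, true, true, true, false,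
          true, true]
          (by decide) (by decide) (by decide) (by decide)
    · exact collision (7) 7930880 551231
          [true, true, true, false, false, true, false, false, false, false, false, true, false,
          false, false, false, false, false, false, false, false, false]
          [false, false, false, false, true, true, false, true, false, false, true, false, false,
          true, true, true, true, true, true]
          (by decide) (by decide) (by decide) (by decide)
    · exact collision (8) 106958848 1048175
          [true, false, false, true, true, false, false, false, false, false, false, false, false,
          true, false, false, false, false, false, false, false, false, false, false, false,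
          false]
          [true, true, true, true, true, true, true, true, true, true, false, false, true, true,
          false, true, true, true, true]
          (by decide) (by decide) (by decide) (by decide)
    · exact collision (9) 205557760 2029375
          [true, false, false, false, true, false, false, false, false, false, false, true, false,
          false, true, false, false, false, false, false, false, false, false, false, false,
          false, false]
          [true, true, true, false, true, true, true, true, false, true, true, true, false, false,
          true, true, true, true, true, true]
          (by decide) (by decide) (by decide) (by decide)
    · exact collision (10) 151257104 1531327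
          [false, false, true, false, false, false, false, false, true, false, false, false, false,
          false, false, false, false, false, false, false, false, false, true, false, false,
          false, false]
          [false, true, true, true, false, true, false, true, true, true, false, true, true, false,
          true, true, true, true, true, true]
          (by decide) (by decide) (by decide) (by decide)
  refine ⟨main, fun h => ?_⟩
  obtain ⟨m, n, hm, hn, hne, hs⟩ := main 3 (by norm_num) (by norm_num)
  exact hne (h 3 (Or.inr (by norm_num)) m n hm hn hs)

end Pool.Agent.Results.MP_6850eb_nt.NotInjective
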